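import Pool.Agent.Y674.TR.Stm2

/-!
Project TR, part 2, DEG: degrees and leading coefficients of the numerators and denominators.
-/

set_option autoImplicit false

namespace Pool.Agent.Y431.TR

open Polynomial Pool.Agent.Y674.TR

/-- degree at most `m`, with coefficient `c` at `m` -/
def Q (p : ℤ[X]) (m : ℕ) (c : ℤ) : Prop := p.natDegree ≤ m ∧ p.coeff m = c

theorem Q.mul {p q : ℤ[X]} {m l : ℕ} {c d : ℤ} (h : Q p m c) (h' : Q q l d) :
    Q (p * q) (m + l) (c * d) :=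
  ⟨Polynomial.natDegree_mul_le_of_le h.1 h'.1, by
    rw [Polynomial.coeff_mul_add_eq_of_natDegree_le h.1 h'.1, h.2, h'.2]⟩

theorem Q.pow {p : ℤ[X]} {m : ℕ} {c : ℤ} (h : Q p m c) (k : ℕ) : Q (p ^ k) (k * m) (c ^ k) :=
  ⟨Polynomial.natDegree_pow_le_of_le k h.1, by
    rw [Polynomial.coeff_pow_of_natDegree_le h.1, h.2]⟩

theorem Q.add {p q : ℤ[X]} {m : ℕ} {c d : ℤ} (h : Q p m c) (h' : Q q m d) :
    Q (p + q) m (c + d) :=
  ⟨(Polynomial.natDegree_add_le _ _).trans (max_le h.1 h'.1), by rw [coeff_add, h.2, h'.2]⟩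

theorem Q.sub {p q : ℤ[X]} {m : ℕ} {c d : ℤ} (h : Q p m c) (h' : Q q m d) :
    Q (p - q) m (c - d) :=
  ⟨(Polynomial.natDegree_sub_le _ _).trans (max_le h.1 h'.1), by rw [coeff_sub, h.2, h'.2]⟩

theorem Q.up {p : ℤ[X]} {m l : ℕ} {c : ℤ} (h : Q p m c) (hl : m < l) : Q p l 0 :=
  ⟨h.1.trans hl.le, coeff_eq_zero_of_natDegree_lt (h.1.trans_lt hl)⟩

theorem Q.cast {p : ℤ[X]} {m l : ℕ} {c d : ℤ} (h : Q p m c) (hm : m = l) (hc : c = d) :
    Q p l d := by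
  rw [← hm, ← hc]
  exact h

theorem Q_C (a : ℤ) : Q (C a) 0 a := ⟨by simp, by simp⟩

theorem Q_X : Q X 1 1 := ⟨natDegree_X_le, by simp⟩

theorem even_step (A B : ℤ) {N D : ℤ[X]} {m : ℕ} {c : ℤ} (hN : Q N (m + 1) 1) (hD : Q D m c) :
    Q (dblP A B (N, D)).1 (4 * m + 4) 1 ∧ Q (dblP A B (N, D)).2 (4 * m + 3) (4 * c) := by
  constructor
  · show Q (N ^ 4 - C (2 * A) * N ^ 2 * D ^ 2 - C (8 * B) * N * D ^ 3 + C (A ^ 2) * D ^ 4) _ _
    have h1 : Q (N ^ 4) (4 * m + 4) 1 := (hN.pow 4).cast (by ring) (by ring)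
    have h2 : Q (C (2 * A) * N ^ 2 * D ^ 2) (4 * m + 4) 0 :=
      (((Q_C (2 * A)).mul (hN.pow 2)).mul (hD.pow 2)).up (by omega)
    have h3 : Q (C (8 * B) * N * D ^ 3) (4 * m + 4) 0 :=
      (((Q_C (8 * B)).mul hN).mul (hD.pow 3)).up (by omega)
    have h4 : Q (C (A ^ 2) * D ^ 4) (4 * m + 4) 0 :=
      ((Q_C (A ^ 2)).mul (hD.pow 4)).up (by omega)
    exact (((h1.sub h2).sub h3).add h4).cast rfl (by ring)
  · show Q (C 4 * D * (N ^ 3 + C A * N * D ^ 2 + C B * D ^ 3)) _ _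
    have h1 : Q (N ^ 3) (3 * m + 3) 1 := (hN.pow 3).cast (by ring) (by ring)
    have h2 : Q (C A * N * D ^ 2) (3 * m + 3) 0 :=
      (((Q_C A).mul hN).mul (hD.pow 2)).up (by omega)
    have h3 : Q (C B * D ^ 3) (3 * m + 3) 0 := ((Q_C B).mul (hD.pow 3)).up (by omega)
    exact (((Q_C 4).mul hD).mul ((h1.add h2).add h3)).cast (by ring) (by ring)

theorem W_step {N D N' D' : ℤ[X]} {m m' : ℕ} {c c' : ℤ} (hN : Q N (m + 1) 1) (hD : Q D m c)
    (hN' : Q N' (m' + 1) 1) (hD' : Q D' m' c') :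
    Q (N * D' - N' * D) (m + m' + 1) (c' - c) := by
  have h1 : Q (N * D') (m + m' + 1) c' := (hN.mul hD').cast (by ring) (by ring)
  have h2 : Q (N' * D) (m + m' + 1) c := (hN'.mul hD).cast (by ring) (by ring)
  exact h1.sub h2

theorem odd_step (A B : ℤ) {N D N' D' : ℤ[X]} {m m' : ℕ} {c c' : ℤ} (hN : Q N (m + 1) 1)
    (hD : Q D m c) (hN' : Q N' (m' + 1) 1) (hD' : Q D' m' c') :
    Q (addP A B (N, D) (N', D')).1 (2 * m + 2 * m' + 3) (2 * (c' + c) - (c' - c) ^ 2) ∧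
    Q (addP A B (N, D) (N', D')).2 (2 * m + 2 * m' + 2) ((c' - c) ^ 2) := by
  have hW := W_step hN hD hN' hD'
  have hW2 : Q ((N * D' - N' * D) ^ 2) (2 * m + 2 * m' + 2) ((c' - c) ^ 2) :=
    (hW.pow 2).cast (by ring) rfl
  refine ⟨?_, hW2⟩
  show Q (C 2 * ((N * D' + N' * D) * (N * N' + C A * (D * D')) + C (2 * B) * (D ^ 2 * D' ^ 2)) -
    X * (N * D' - N' * D) ^ 2) _ _
  have h1 : Q (N * D' + N' * D) (m + m' + 1) (c' + c) :=
    Q.add ((hN.mul hD').cast (by ring) (by ring)) ((hN'.mul hD).cast (by ring) (by ring))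
  have h2 : Q (N * N' + C A * (D * D')) (m + m' + 2) (1 + 0) :=
    Q.add ((hN.mul hN').cast (by ring) (by ring)) (((Q_C A).mul (hD.mul hD')).up (by omega))
  have h3 : Q (C (2 * B) * (D ^ 2 * D' ^ 2)) (2 * m + 2 * m' + 3) 0 :=
    ((Q_C (2 * B)).mul ((hD.pow 2).mul (hD'.pow 2))).up (by omega)
  have h4 : Q ((N * D' + N' * D) * (N * N' + C A * (D * D'))) (2 * m + 2 * m' + 3) (c' + c) :=
    (h1.mul h2).cast (by ring) (by ring)
  have h5 : Q (C 2 * ((N * D' + N' * D) * (N * N' + C A * (D * D')) +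
      C (2 * B) * (D ^ 2 * D' ^ 2))) (2 * m + 2 * m' + 3) (2 * (c' + c)) :=
    ((Q_C 2).mul (h4.add h3)).cast (by ring) (by ring)
  have h6 : Q (X * (N * D' - N' * D) ^ 2) (2 * m + 2 * m' + 3) ((c' - c) ^ 2) :=
    (Q_X.mul hW2).cast (by ring) (by ring)
  exact h5.sub h6

/-- numerator and denominator -/
theorem main (A B : ℤ) : ∀ n : ℕ, 1 ≤ n → ∃ m : ℕ, m + 1 = n ^ 2 ∧
    Q (ND A B n).1 (m + 1) 1 ∧ Q (ND A B n).2 m ((n : ℤ) ^ 2) := by
  intro n
  induction n using Nat.strong_induction_on with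
  | _ n ih =>
    intro hn
    rcases Nat.lt_or_ge n 2 with h2 | h2
    · have h1 : n = 1 := by omega
      subst h1
      refine ⟨0, by norm_num, ?_⟩
      rw [ND_one]
      exact ⟨Q_X, by
        have := Q_C 1
        rw [C_1] at this
        exact this.cast rfl (by norm_num)⟩
    · rcases Nat.even_or_odd' n with ⟨k, hk | hk⟩
      · have hk1 : 1 ≤ k := by omega
        obtain ⟨m, hm, h3, h4⟩ := ih k (by omega) hk1
        subst hk
        rw [ND_even A B k hk1]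
        obtain ⟨h5, h6⟩ := even_step A B h3 h4
        refine ⟨4 * m + 3, by nlinarith, h5, h6.cast rfl (by push_cast; ring)⟩
      · have hk1 : 1 ≤ k := by omega
        obtain ⟨m, hm, h3, h4⟩ := ih k (by omega) hk1
        obtain ⟨m', hm', h3', h4'⟩ := ih (k + 1) (by omega) (by omega)
        subst hk
        rw [ND_odd A B k hk1]
        obtain ⟨h5, h6⟩ := odd_step A B h3 h4 h3' h4'
        refine ⟨2 * m + 2 * m' + 2, by nlinarith, h5.cast rfl (by push_cast; ring),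
          h6.cast rfl (by push_cast; ring)⟩

theorem deg : DEG := by
  intro A B n hn
  obtain ⟨m, hm, h1, h2⟩ := main A B n hn
  obtain ⟨m', hm', h1', h2'⟩ := main A B (n + 1) (by omega)
  have hW : Q (Wp A B n) (m + m' + 1) (((n + 1 : ℕ) : ℤ) ^ 2 - (n : ℤ) ^ 2) :=
    W_step h1 h2 h1' h2'
  have hn0 : (n : ℤ) ^ 2 ≠ 0 := by positivity
  have e1 : (ND A B n).1.natDegree = n ^ 2 := by
    rw [← hm]
    exact natDegree_eq_of_le_of_coeff_ne_zero h1.1 (by rw [h1.2]; exact one_ne_zero)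
  have e2 : (ND A B n).2.natDegree = m :=
    natDegree_eq_of_le_of_coeff_ne_zero h2.1 (by rw [h2.2]; exact hn0)
  refine ⟨⟨?_, e1, ?_, ?_⟩, ?_⟩
  · exact monic_of_natDegree_le_of_coeff_eq_one _ h1.1 h1.2
  · rw [e2]; omega
  · rw [leadingCoeff, e2, h2.2]
  · have e3 : (Wp A B n).natDegree = m + m' + 1 := by
      refine natDegree_eq_of_le_of_coeff_ne_zero hW.1 ?_
      rw [hW.2]
      push_cast
      have : (0 : ℤ) ≤ n := by positivity
      nlinarith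
    rw [e3]
    nlinarith

end Pool.Agent.Y431.TR
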